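import Mathlib

open Filter Topology

namespace Pool.Agent.Results.MP_49bdf6_an.CompleteExtension

variable {𝕜 : Type*} [RCLike 𝕜] {E : Type*} [NormedAddCommGroup E] [NormedSpace 𝕜 E]

/-- uniform estimate on a finite dimensional space transversal to Y -/
theorem unif_estimate (Y W : Submodule 𝕜 E) (hY : IsClosed (Y : Set E)) [FiniteDimensional 𝕜 W]
    (hYW : Disjoint Y W) (g : ℕ → (E →L[𝕜] 𝕜)) (M : ℝ) (hM : 0 ≤ M)
    (hgM : ∀ n, ∀ y ∈ Y, ‖g n y‖ ≤ M * ‖y‖)
    (hg0 : ∀ y ∈ Y, Tendsto (fun n => g n y) atTop (𝓝 0)) (C : ℝ) (hC : 2 * M < C) :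
    ∀ᶠ n in atTop, ∀ y ∈ Y, ∀ w ∈ W, ‖g n y‖ ≤ C * ‖y + w‖ := by
  classical
  -- the unit sphere of W
  have hKc : IsCompact (Metric.sphere (0 : W) 1) := isCompact_sphere 0 1
  -- local statement
  have hloc : ∀ w0 : W, w0 ∈ Metric.sphere (0 : W) 1 → ∃ η > 0, ∀ᶠ n in atTop,
      ∀ w : W, ‖w - w0‖ < η → ∀ y ∈ Y, ‖g n y‖ ≤ C * ‖y + w‖ := by
    intro w0 hw0
    have hw0norm : ‖(w0 : E)‖ = 1 := by simpa using hw0
    have hw0Y : (w0 : E) ∉ (Y : Set E) := by
      intro h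
      have := Submodule.disjoint_def.mp hYW w0 h w0.2
      rw [this] at hw0norm
      simp at hw0norm
    have hd0 : 0 < Metric.infDist (w0 : E) (Y : Set E) :=
      (hY.notMem_iff_infDist_pos ⟨0, Y.zero_mem⟩).mp hw0Y
    set d0 := Metric.infDist (w0 : E) (Y : Set E) with hd0def
    set η := min (d0 / 2) ((C - 2 * M) * d0 / (2 * (3 * M + 1))) with hη
    have hηpos : 0 < η := by
      apply lt_min (by linarith)
      apply div_pos (mul_pos (by linarith) hd0) (by linarith)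
    obtain ⟨y1, hy1, hy1d⟩ := (Metric.infDist_lt_iff (⟨0, Y.zero_mem⟩ : (Y : Set E).Nonempty)).mp
      (show Metric.infDist (w0 : E) (Y : Set E) < d0 + η by linarith)
    -- y0 = - y1
    refine ⟨η, hηpos, ?_⟩
    have hev : ∀ᶠ n in atTop, ‖g n y1‖ < η := by
      have := (hg0 y1 hy1).norm
      rw [norm_zero] at this
      exact this.eventually (gt_mem_nhds hηpos)
    filter_upwards [hev] with n hn w hw y hy
    have h1 : ‖g n y‖ ≤ ‖g n (y + y1)‖ + ‖g n y1‖ := by
      have : g n y = g n (y + y1) - g n y1 := by rw [map_add]; ring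
      rw [this]
      exact norm_sub_le _ _
    have h2 : ‖g n (y + y1)‖ ≤ M * ‖y + y1‖ := hgM n _ (Y.add_mem hy hy1)
    have h3 : ‖y + y1‖ ≤ ‖y + (w : E)‖ + ‖(w : E) - w0‖ + ‖(w0 : E) - y1‖ := by
      have : y + y1 = (y + (w : E)) - ((w : E) - w0) - ((w0 : E) - y1) := by abel
      rw [this]
      exact (norm_sub_le _ _).trans (add_le_add_left (norm_sub_le _ _) _)
    have h4 : ‖(w : E) - w0‖ < η := by
      have : ‖w - w0‖ = ‖(w : E) - w0‖ := rfl
      rw [← this]; exact hw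
    have h5 : ‖(w0 : E) - y1‖ < d0 + η := by rwa [← dist_eq_norm]
    have h6 : d0 ≤ ‖y + (w : E)‖ + η := by
      have : d0 ≤ dist (w0 : E) (-y) := Metric.infDist_le_dist_of_mem (Y.neg_mem hy)
      rw [dist_eq_norm] at this
      have h7 : (w0 : E) - -y = (y + (w : E)) - ((w : E) - w0) := by abel
      rw [h7] at this
      have := this.trans (norm_sub_le _ _)
      linarith
    have hη1 : η ≤ d0 / 2 := min_le_left _ _
    have hη2 : η ≤ (C - 2 * M) * d0 / (2 * (3 * M + 1)) := min_le_right _ _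
    have h8 : (3 * M + 1) * η ≤ (C - 2 * M) * (d0 / 2) := by
      have : (3 * M + 1) * η ≤ (3 * M + 1) * ((C - 2 * M) * d0 / (2 * (3 * M + 1))) :=
        mul_le_mul_of_nonneg_left hη2 (by linarith)
      have h9 : (3 * M + 1) * ((C - 2 * M) * d0 / (2 * (3 * M + 1))) = (C - 2 * M) * (d0 / 2) := by
        have : (3 * M + 1) ≠ 0 := by linarith
        field_simp
      linarith
    have h10 : (C - 2 * M) * (d0 / 2) ≤ (C - 2 * M) * ‖y + (w : E)‖ :=
      mul_le_mul_of_nonneg_left (by linarith) (by linarith)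
    have h11 : M * ‖y + y1‖ ≤ M * (2 * ‖y + (w : E)‖ + 3 * η) :=
      mul_le_mul_of_nonneg_left (by linarith) hM
    nlinarith
  choose! η hηpos hηev using hloc
  obtain ⟨t, htK, htcov⟩ := hKc.elim_nhds_subcover (fun w0 => Metric.ball w0 (η w0))
    (fun w0 hw0 => Metric.ball_mem_nhds _ (hηpos w0 hw0))
  have hall : ∀ᶠ n in atTop, ∀ w0 ∈ t, ∀ w : W, ‖w - w0‖ < η w0 → ∀ y ∈ Y,
      ‖g n y‖ ≤ C * ‖y + w‖ := by
    rw [Finset.eventually_all]
    intro w0 hw0
    exact hηev w0 (htK w0 hw0)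
  filter_upwards [hall] with n hn y hy w hw
  by_cases hw0 : w = 0
  · subst hw0
    rw [add_zero]
    refine (hgM n y hy).trans (mul_le_mul_of_nonneg_right (by linarith) (norm_nonneg _))
  · have hwn : ‖w‖ ≠ 0 := norm_ne_zero_iff.mpr hw0
    set c : 𝕜 := ((‖w‖ : ℝ) : 𝕜)⁻¹ with hc
    have hcn : ‖c‖ = ‖w‖⁻¹ := by rw [hc, norm_inv, RCLike.norm_ofReal, abs_norm]
    let w' : W := c • ⟨w, hw⟩
    have hw' : w' ∈ Metric.sphere (0 : W) 1 := by
      rw [mem_sphere_zero_iff_norm]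
      change ‖c • w‖ = 1
      rw [norm_smul, hcn, inv_mul_cancel₀ hwn]
    obtain ⟨w0, hw0t, hw0b⟩ := Set.mem_iUnion₂.mp (htcov hw')
    have h1 := hn w0 hw0t w' (by rwa [Metric.mem_ball, dist_eq_norm] at hw0b) (c • y)
      (Y.smul_mem c hy)
    have h2 : c • y + (w' : E) = c • (y + w) := by
      rw [smul_add]; rfl
    rw [h2, map_smul, norm_smul, norm_smul, hcn] at h1
    have hpos : 0 < ‖w‖⁻¹ := inv_pos.mpr (lt_of_le_of_ne (norm_nonneg _) (Ne.symm hwn))
    have h3 : ‖w‖⁻¹ * ‖g n y‖ ≤ ‖w‖⁻¹ * (C * ‖y + w‖) := by linarith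
    exact le_of_mul_le_mul_left h3 hpos

/-- extension vanishing on W -/
theorem extend_vanish (Y W : Submodule 𝕜 E) (hYW : Disjoint Y W) (g : E →L[𝕜] 𝕜) (C : ℝ)
    (hC : 0 ≤ C) (h : ∀ y ∈ Y, ∀ w ∈ W, ‖g y‖ ≤ C * ‖y + w‖) :
    ∃ f : E →L[𝕜] 𝕜, (∀ y ∈ Y, f y = g y) ∧ (∀ w ∈ W, f w = 0) ∧ ‖f‖ ≤ C := by
  let p1 : E →ₗ.[𝕜] 𝕜 := ⟨Y, g.toLinearMap.domRestrict Y⟩
  let p2 : E →ₗ.[𝕜] 𝕜 := ⟨W, 0⟩
  have hagree : ∀ (x : p1.domain) (y : p2.domain), (x : E) = y → p1 x = p2 y :=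
    LinearPMap.sup_h_of_disjoint p1 p2 hYW
  let p := p1.sup p2 hagree
  have hdom : p.domain = Y ⊔ W := rfl
  have hval : ∀ (y : E) (hy : y ∈ Y) (w : E) (hw : w ∈ W) (z : p.domain), y + w = z → p z = g y := by
    intro y hy w hw z hz
    have := LinearPMap.sup_apply hagree ⟨y, hy⟩ ⟨w, hw⟩ z hz
    rw [this]
    change g y + 0 = g y
    rw [add_zero]
  have hbound : ∀ z : p.domain, ‖p.toFun z‖ ≤ C * ‖z‖ := by
    intro z
    obtain ⟨y, hy, w, hw, hz⟩ := Submodule.mem_sup.mp (show (z : E) ∈ Y ⊔ W from z.2)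
    have h1 : p.toFun z = g y := hval y hy w hw z hz
    rw [h1]
    have h2 : ‖z‖ = ‖y + w‖ := by
      change ‖(z : E)‖ = _
      rw [← hz]
    rw [h2]
    exact h y hy w hw
  let F : p.domain →L[𝕜] 𝕜 := LinearMap.mkContinuous p.toFun C hbound
  obtain ⟨f, hf1, hf2⟩ := exists_extension_norm_eq p.domain F
  refine ⟨f, ?_, ?_, ?_⟩
  · intro y hy
    have hy' : y ∈ p.domain := by
      rw [hdom]
      exact Submodule.mem_sup_left hy
    have h1 := hf1 ⟨y, hy'⟩
    have h2 : F ⟨y, hy'⟩ = g y := hval y hy 0 W.zero_mem ⟨y, hy'⟩ (add_zero y)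
    rw [← h2, ← h1]
  · intro w hw
    have hw' : w ∈ p.domain := by
      rw [hdom]
      exact Submodule.mem_sup_right hw
    have h1 := hf1 ⟨w, hw'⟩
    have h2 : F ⟨w, hw'⟩ = g 0 := hval 0 Y.zero_mem w hw ⟨w, hw'⟩ (zero_add w)
    rw [map_zero] at h2
    rw [← h2, ← h1]
  · rw [hf2]
    exact LinearMap.mkContinuous_norm_le _ hC _

/-- the main construction -/
theorem main_construction [TopologicalSpace.SeparableSpace E] (x : ℕ → E)
    (g : ℕ → (E →L[𝕜] 𝕜)) (hgx : ∀ i j, g i (x j) = if i = j then 1 else 0) (M : ℝ) (hM : 0 ≤ M)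
    (hgM : ∀ n, ∀ y ∈ (Submodule.span 𝕜 (Set.range x)).topologicalClosure, ‖g n y‖ ≤ M * ‖y‖)
    (C : ℝ) (hC : 2 * M < C) :
    ∃ f : ℕ → (E →L[𝕜] 𝕜),
      (∀ n, ∀ y ∈ (Submodule.span 𝕜 (Set.range x)).topologicalClosure, f n y = g n y) ∧
      (∀ n, ‖f n‖ ≤ C) ∧
      Dense (((Submodule.span 𝕜 (Set.range x)).topologicalClosure
        ⊔ ⨅ n, LinearMap.ker (f n : E →ₗ[𝕜] 𝕜) : Submodule 𝕜 E) : Set E) := by
  classical
  set Y := (Submodule.span 𝕜 (Set.range x)).topologicalClosure with hYdef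
  have hYc : IsClosed (Y : Set E) := Submodule.isClosed_topologicalClosure _
  have hC0 : 0 ≤ C := by linarith
  have hxY : ∀ n, x n ∈ Y := fun n =>
    Submodule.le_topologicalClosure _ (Submodule.subset_span ⟨n, rfl⟩)
  have hspan0 : ∀ s ∈ Submodule.span 𝕜 (Set.range x), ∃ N, ∀ n ≥ N, g n s = 0 := by
    intro s hs
    induction hs using Submodule.span_induction with
    | mem z hz =>
      obtain ⟨j, rfl⟩ := hz
      refine ⟨j + 1, fun n hn => ?_⟩
      rw [hgx, if_neg (by omega)]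
    | zero => exact ⟨0, fun n _ => map_zero _⟩
    | add a b _ _ ha hb =>
      obtain ⟨N1, h1⟩ := ha
      obtain ⟨N2, h2⟩ := hb
      refine ⟨max N1 N2, fun n hn => ?_⟩
      rw [map_add, h1 n (le_trans (le_max_left _ _) hn), h2 n (le_trans (le_max_right _ _) hn),
        add_zero]
    | smul c a _ ha =>
      obtain ⟨N1, h1⟩ := ha
      exact ⟨N1, fun n hn => by rw [map_smul, h1 n hn, smul_zero]⟩
  -- weak star null on Y
  have hg0 : ∀ y ∈ Y, Tendsto (fun n => g n y) atTop (𝓝 0) := by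
    intro y hy
    rw [Metric.tendsto_atTop]
    intro ε hε
    have hy' : y ∈ closure ((Submodule.span 𝕜 (Set.range x) : Submodule 𝕜 E) : Set E) := by
      rw [← Submodule.topologicalClosure_coe]; exact hy
    obtain ⟨s, hs, hsy⟩ := Metric.mem_closure_iff.mp hy' (ε / (M + 1)) (div_pos hε (by linarith))
    have hsY : s ∈ Y := Submodule.le_topologicalClosure _ hs
    obtain ⟨N, hN⟩ := hspan0 s hs
    refine ⟨N, fun n hn => ?_⟩
    rw [dist_zero_right]
    have h1 : g n y = g n (y - s) := by rw [map_sub, hN n hn, sub_zero]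
    rw [h1]
    have h2 := hgM n (y - s) (Y.sub_mem hy hsY)
    have h3 : ‖y - s‖ < ε / (M + 1) := by rwa [← dist_eq_norm]
    have h4 : M * ‖y - s‖ ≤ (M + 1) * ‖y - s‖ :=
      mul_le_mul_of_nonneg_right (by linarith) (norm_nonneg _)
    have h5 : (M + 1) * ‖y - s‖ < (M + 1) * (ε / (M + 1)) :=
      mul_lt_mul_of_pos_left h3 (by linarith)
    have h6 : (M + 1) * (ε / (M + 1)) = ε := by
      have : M + 1 ≠ 0 := by linarith
      field_simp
    linarith
  -- algebraic complement and dense sequence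
  obtain ⟨U, hU⟩ := Submodule.exists_isCompl Y
  let d : ℕ → E := TopologicalSpace.denseSeq E
  have hdec : ∀ k, ∃ y ∈ Y, ∃ w ∈ U, y + w = d k := by
    intro k
    have : d k ∈ Y ⊔ U := by rw [hU.sup_eq_top]; trivial
    exact Submodule.mem_sup.mp this
  choose yy hyy w hw hyw using hdec
  let W : ℕ → Submodule 𝕜 E := fun k => Submodule.span 𝕜 (w '' Set.Iio k)
  have hWU : ∀ k, W k ≤ U := by
    intro k
    apply Submodule.span_le.mpr
    rintro _ ⟨j, _, rfl⟩
    exact hw j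
  have hWfin : ∀ k, FiniteDimensional 𝕜 (W k) := fun k =>
    FiniteDimensional.span_of_finite 𝕜 ((Set.finite_Iio k).image w)
  have hWdisj : ∀ k, Disjoint Y (W k) := fun k => hU.disjoint.mono_right (hWU k)
  have hWmono : ∀ {j k}, j ≤ k → W j ≤ W k := by
    intro j k hjk
    exact Submodule.span_mono (Set.image_mono (Set.Iio_subset_Iio hjk))
  let P : ℕ → ℕ → Prop := fun n k => ∀ y ∈ Y, ∀ v ∈ W k, ‖g n y‖ ≤ C * ‖y + v‖
  have hPev : ∀ k, ∀ᶠ n in atTop, P n k := by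
    intro k
    have := hWfin k
    exact unif_estimate Y (W k) hYc (hWdisj k) g M hM hgM hg0 C hC
  have hP0 : ∀ n, P n 0 := by
    intro n y hy v hv
    have : v = 0 := by
      have h0 : W 0 = ⊥ := by simp [W]
      rw [h0] at hv
      exact (Submodule.mem_bot 𝕜).mp hv
    rw [this, add_zero]
    exact (hgM n y hy).trans (mul_le_mul_of_nonneg_right (by linarith) (norm_nonneg _))
  let kk : ℕ → ℕ := fun n => Nat.findGreatest (P n) n
  have hkk : ∀ n, P n (kk n) := fun n => Nat.findGreatest_spec (Nat.zero_le n) (hP0 n)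
  have hext := fun n => extend_vanish Y (W (kk n)) (hWdisj (kk n)) (g n) C hC0 (hkk n)
  choose f hfY hfW hfC using hext
  refine ⟨f, hfY, hfC, ?_⟩
  -- f n vanishes on w k eventually
  have hfw : ∀ k, ∃ N, ∀ n ≥ N, f n (w k) = 0 := by
    intro k
    obtain ⟨N, hN⟩ := eventually_atTop.mp (hPev (k + 1))
    refine ⟨max N (k + 1), fun n hn => ?_⟩
    have h1 : P n (k + 1) := hN n (le_trans (le_max_left _ _) hn)
    have h2 : k + 1 ≤ kk n := Nat.le_findGreatest (le_trans (le_max_right _ _) hn) h1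
    exact hfW n (w k) (hWmono h2 (Submodule.subset_span ⟨k, Set.mem_Iio.mpr (Nat.lt_succ_self k), rfl⟩))
  have hmem : ∀ k, d k ∈ (Y ⊔ ⨅ n, LinearMap.ker (f n : E →ₗ[𝕜] 𝕜) : Submodule 𝕜 E) := by
    intro k
    obtain ⟨N, hN⟩ := hfw k
    let s : E := ∑ n ∈ Finset.range N, (f n (w k)) • x n
    have hs : s ∈ Y := Y.sum_mem fun n _ => Y.smul_mem _ (hxY n)
    have hz : w k - s ∈ ⨅ n, LinearMap.ker (f n : E →ₗ[𝕜] 𝕜) := by
      rw [Submodule.mem_iInf]
      intro m
      rw [LinearMap.mem_ker]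
      change f m (w k - s) = 0
      have h1 : f m s = if m < N then f m (w k) else 0 := by
        simp only [s, map_sum, map_smul, smul_eq_mul]
        have h2 : ∀ n ∈ Finset.range N, f n (w k) * f m (x n) = if m = n then f m (w k) else 0 := by
          intro n _
          rw [hfY m (x n) (hxY n), hgx]
          by_cases hmn : m = n
          · subst hmn; simp
          · simp [hmn]
        rw [Finset.sum_congr rfl h2, Finset.sum_ite_eq]
        simp [Finset.mem_range]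
      rw [map_sub, h1]
      by_cases hm : m < N
      · rw [if_pos hm, sub_self]
      · rw [if_neg hm, sub_zero]
        exact hN m (not_lt.mp hm)
    have h1 : d k = (yy k + s) + (w k - s) := by
      rw [← hyw k]; abel
    rw [h1]
    exact Submodule.add_mem_sup (Y.add_mem (hyy k) hs) hz
  have hdense : DenseRange d := TopologicalSpace.denseRange_denseSeq E
  exact hdense.mono (by rintro _ ⟨k, rfl⟩; exact hmem k)


/-- finite norming set of functionals for a finite dimensional subspace -/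
theorem finite_norming (V : Submodule 𝕜 E) [FiniteDimensional 𝕜 V] :
    ∃ G : Finset (E →L[𝕜] 𝕜), (∀ h ∈ G, ‖h‖ ≤ 1) ∧ ∀ v ∈ V, v ≠ 0 → ∃ h ∈ G, ‖v‖ ≤ 2 * ‖h v‖ := by
  classical
  have hKc : IsCompact (Metric.sphere (0 : V) 1) := isCompact_sphere 0 1
  have hloc : ∀ w0 : V, w0 ∈ Metric.sphere (0 : V) 1 → ∃ h : E →L[𝕜] 𝕜, ‖h‖ = 1 ∧ ‖h w0‖ = 1 := by
    intro w0 hw0
    have hn : ‖(w0 : E)‖ = 1 := by simpa using hw0
    obtain ⟨g, hg1, hg2⟩ := exists_dual_vector 𝕜 (w0 : E) (by rw [hn]; exact one_ne_zero)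
    refine ⟨g, hg1, ?_⟩
    rw [hg2, hn]
    simp
  choose! h hh1 hh2 using hloc
  obtain ⟨t, htK, htcov⟩ := hKc.elim_nhds_subcover (fun w0 => Metric.ball w0 (1 / 2))
    (fun w0 _ => Metric.ball_mem_nhds _ (by norm_num))
  refine ⟨t.image h, ?_, ?_⟩
  · intro g hg
    obtain ⟨w0, hw0, rfl⟩ := Finset.mem_image.mp hg
    exact (hh1 w0 (htK w0 hw0)).le
  · intro v hv hv0
    have hvn : ‖v‖ ≠ 0 := norm_ne_zero_iff.mpr hv0
    set c : 𝕜 := ((‖v‖ : ℝ) : 𝕜)⁻¹ with hc
    have hcn : ‖c‖ = ‖v‖⁻¹ := by rw [hc, norm_inv, RCLike.norm_ofReal, abs_norm]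
    let w' : V := c • ⟨v, hv⟩
    have hw' : w' ∈ Metric.sphere (0 : V) 1 := by
      rw [mem_sphere_zero_iff_norm]
      change ‖c • v‖ = 1
      rw [norm_smul, hcn, inv_mul_cancel₀ hvn]
    obtain ⟨w0, hw0t, hw0b⟩ := Set.mem_iUnion₂.mp (htcov hw')
    refine ⟨h w0, Finset.mem_image_of_mem _ hw0t, ?_⟩
    rw [Metric.mem_ball, dist_eq_norm] at hw0b
    have h1 : ‖h w0 (w' : E)‖ ≥ 1 / 2 := by
      have h2 : h w0 (w0 : E) = h w0 (w' : E) - h w0 ((w' : E) - w0) := by
        rw [map_sub]; ring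
      have h3 : ‖h w0 ((w' : E) - w0)‖ ≤ 1 / 2 := by
        have h4 := (h w0).le_opNorm ((w' : E) - w0)
        rw [hh1 w0 (htK w0 hw0t), one_mul] at h4
        exact h4.trans hw0b.le
      have h5 : ‖h w0 (w0 : E)‖ ≤ ‖h w0 (w' : E)‖ + ‖h w0 ((w' : E) - w0)‖ := by
        rw [h2]; exact norm_sub_le _ _
      rw [hh2 w0 (htK w0 hw0t)] at h5
      linarith
    have h6 : h w0 (w' : E) = c * h w0 v := by
      change h w0 (c • v) = _
      rw [map_smul, smul_eq_mul]
    rw [h6, norm_mul, hcn] at h1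
    have hpos : 0 < ‖v‖ := lt_of_le_of_ne (norm_nonneg _) (Ne.symm hvn)
    rw [inv_mul_eq_div, ge_iff_le, le_div_iff₀ hpos] at h1
    linarith

/-- finitely many functionals have a common nonzero kernel vector -/
theorem common_kernel (hinf : ¬ FiniteDimensional 𝕜 E) (G : Finset (E →L[𝕜] 𝕜)) :
    ∃ v : E, ‖v‖ = 1 ∧ ∀ h ∈ G, h v = 0 := by
  classical
  let Φ : E →ₗ[𝕜] (G → 𝕜) := LinearMap.pi fun h => (h.1 : E →ₗ[𝕜] 𝕜)
  have hni : ¬ Function.Injective Φ := fun hinj => hinf (FiniteDimensional.of_injective Φ hinj)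
  rw [← LinearMap.ker_eq_bot] at hni
  obtain ⟨v, hv, hv0⟩ := (Submodule.ne_bot_iff _).mp hni
  have hvn : ‖v‖ ≠ 0 := norm_ne_zero_iff.mpr hv0
  refine ⟨((‖v‖ : ℝ) : 𝕜)⁻¹ • v, ?_, ?_⟩
  · rw [norm_smul, norm_inv, RCLike.norm_ofReal, abs_norm, inv_mul_cancel₀ hvn]
  · intro h hh
    have h1 : Φ v ⟨h, hh⟩ = 0 := by
      rw [LinearMap.mem_ker.mp hv]; rfl
    have h2 : h v = 0 := h1
    rw [map_smul, h2, smul_zero]

/-- a bounded biorthogonal sequence in an infinite dimensional normed space -/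
theorem exists_bdd_biorth (hinf : ¬ FiniteDimensional 𝕜 E) :
    ∃ (v : ℕ → E) (g : ℕ → (E →L[𝕜] 𝕜)), (∀ n, ‖v n‖ ≤ 1) ∧ (∀ n, ‖g n‖ ≤ 3) ∧
      (∀ n, g n (v n) = 1) ∧ (∀ m n, m ≠ n → g m (v n) = 0) := by
  classical
  obtain ⟨p, hp1, hp2⟩ := exists_seq_of_forall_finset_exists
    (fun p : E × (E →L[𝕜] 𝕜) => ‖p.1‖ ≤ 1 ∧ ‖p.2‖ ≤ 3 ∧ p.2 p.1 = 1)
    (fun p q => p.2 q.1 = 0 ∧ q.2 p.1 = 0) (by
      intro s _
      let V : Submodule 𝕜 E := Submodule.span 𝕜 ((s.image Prod.fst : Finset E) : Set E)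
      have hVfin : FiniteDimensional 𝕜 V := FiniteDimensional.span_finset 𝕜 _
      obtain ⟨G, hG1, hG2⟩ := finite_norming V
      obtain ⟨v, hv1, hv2⟩ := common_kernel hinf (G ∪ s.image Prod.snd)
      obtain ⟨g0, hg01, hg02⟩ := exists_dual_vector 𝕜 v (by rw [hv1]; exact one_ne_zero)
      have hg03 : g0 v = 1 := by rw [hg02, hv1]; simp
      let Y : Submodule 𝕜 E := Submodule.span 𝕜 {v}
      have hkey : ∀ t : 𝕜, ∀ w ∈ V, ‖t‖ ≤ 3 * ‖t • v + w‖ := by
        intro t w hw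
        have h1 : ‖w‖ ≤ 2 * ‖t • v + w‖ := by
          by_cases hw0 : w = 0
          · rw [hw0, norm_zero]; positivity
          · obtain ⟨h, hh, hhw⟩ := hG2 w hw hw0
            have h2 : h w = h (t • v + w) := by
              rw [map_add, map_smul, hv2 h (Finset.mem_union_left _ hh), smul_zero, zero_add]
            have h3 := h.le_opNorm (t • v + w)
            have h4 : ‖h‖ * ‖t • v + w‖ ≤ 1 * ‖t • v + w‖ :=
              mul_le_mul_of_nonneg_right (hG1 h hh) (norm_nonneg _)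
            rw [h2] at hhw
            linarith
        have h5 : ‖t‖ = ‖t • v‖ := by rw [norm_smul, hv1, mul_one]
        have h6 : t • v = (t • v + w) - w := by abel
        have h7 : ‖t • v‖ ≤ ‖t • v + w‖ + ‖w‖ := by
          conv_lhs => rw [h6]
          exact norm_sub_le _ _
        linarith
      have hdisj : Disjoint Y V := by
        rw [Submodule.disjoint_def]
        intro y hy hyV
        obtain ⟨t, rfl⟩ := Submodule.mem_span_singleton.mp hy
        have := hkey t (-(t • v)) (V.neg_mem hyV)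
        rw [add_neg_cancel, norm_zero, mul_zero] at this
        rw [norm_le_zero_iff.mp this, zero_smul]
      obtain ⟨f, hf1, hf2, hf3⟩ := extend_vanish Y V hdisj g0 3 (by norm_num) (by
        intro y hy w hw
        obtain ⟨t, rfl⟩ := Submodule.mem_span_singleton.mp hy
        rw [map_smul, hg03, smul_eq_mul, mul_one]
        exact hkey t w hw)
      refine ⟨(v, f), ⟨hv1.le, hf3, ?_⟩, ?_⟩
      · rw [hf1 v (Submodule.mem_span_singleton_self v), hg03]
      · intro q hq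
        refine ⟨hv2 q.2 (Finset.mem_union_right _ (Finset.mem_image_of_mem _ hq)), ?_⟩
        exact hf2 q.1 (Submodule.subset_span (Finset.mem_coe.mpr (Finset.mem_image_of_mem _ hq))))
  refine ⟨fun n => (p n).1, fun n => (p n).2, fun n => (hp1 n).1, fun n => (hp1 n).2.1,
    fun n => (hp1 n).2.2, ?_⟩
  intro m n hmn
  rcases lt_or_gt_of_ne hmn with h | h
  · exact (hp2 m n h).1
  · exact (hp2 n m h).2

/-- relative version: bounded biorthogonal sequence annihilating a closed subspace of infinite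
codimension -/
theorem exists_bdd_biorth_rel (Y : Submodule 𝕜 E) (hY : IsClosed (Y : Set E))
    (hinf : ¬ FiniteDimensional 𝕜 (E ⧸ Y)) :
    ∃ (v : ℕ → E) (g : ℕ → (E →L[𝕜] 𝕜)), (∀ n, ‖v n‖ ≤ 2) ∧ (∀ n, ‖g n‖ ≤ 3) ∧
      (∀ n, g n (v n) = 1) ∧ (∀ m n, m ≠ n → g m (v n) = 0) ∧ (∀ n, ∀ y ∈ Y, g n y = 0) := by
  have : IsClosed (Y : Set E) := hY
  obtain ⟨v, g, hv, hg, hvg, hvg'⟩ := exists_bdd_biorth (𝕜 := 𝕜) (E := E ⧸ Y) hinf
  have hlift : ∀ n, ∃ u : E, Submodule.Quotient.mk u = v n ∧ ‖u‖ < ‖v n‖ + 1 := fun n =>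
    Submodule.Quotient.norm_mk_lt (v n) one_pos
  choose u hu1 hu2 using hlift
  let G : ℕ → (E →L[𝕜] 𝕜) := fun n =>
    LinearMap.mkContinuous ((g n : (E ⧸ Y) →ₗ[𝕜] 𝕜).comp Y.mkQ) 3 (by
      intro x
      have h1 := (g n).le_opNorm (Submodule.Quotient.mk x)
      have h2 := Submodule.Quotient.norm_mk_le Y x
      have h3 : ‖g n‖ * ‖(Submodule.Quotient.mk x : E ⧸ Y)‖ ≤ 3 * ‖x‖ :=
        mul_le_mul (hg n) h2 (norm_nonneg _) (by norm_num)
      exact h1.trans h3)
  have hG : ∀ n x, G n x = g n (Submodule.Quotient.mk x) := fun n x => rfl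
  refine ⟨u, G, ?_, ?_, ?_, ?_, ?_⟩
  · intro n
    have := hv n
    linarith [hu2 n]
  · intro n
    exact LinearMap.mkContinuous_norm_le _ (by norm_num) _
  · intro n
    rw [hG, hu1, hvg]
  · intro m n hmn
    rw [hG, hu1, hvg' m n hmn]
  · intro n y hy
    rw [hG, (Submodule.Quotient.mk_eq_zero Y).mpr hy, map_zero]

/-- two far out indices on which finitely many functionals nearly agree -/
theorem close_pair (f : ℕ → (E →L[𝕜] 𝕜)) (Mf : ℝ) (hf : ∀ n, ‖f n‖ ≤ Mf) (v : ℕ → E) (Cv : ℝ)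
    (hv : ∀ n, ‖v n‖ ≤ Cv) (N L : ℕ) (ε : ℝ) (hε : 0 < ε) :
    ∃ p q, L ≤ p ∧ p < q ∧ ∀ n < N, ‖f n (v p - v q)‖ ≤ ε := by
  have hMf : 0 ≤ Mf := (norm_nonneg _).trans (hf 0)
  have hCv : 0 ≤ Cv := (norm_nonneg _).trans (hv 0)
  let a : ℕ → (Fin N → 𝕜) := fun i n => f n (v i)
  have ha : ∀ i, a i ∈ Metric.closedBall (0 : Fin N → 𝕜) (Mf * Cv) := by
    intro i
    rw [mem_closedBall_zero_iff, pi_norm_le_iff_of_nonneg (mul_nonneg hMf hCv)]
    intro n
    exact ((f n).le_opNorm (v i)).trans (mul_le_mul (hf n) (hv i) (norm_nonneg _) hMf)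
  obtain ⟨b, _, φ, hφ, hlim⟩ := tendsto_subseq_of_bounded Metric.isBounded_closedBall ha
  have hC : CauchySeq (a ∘ φ) := hlim.cauchySeq
  obtain ⟨K, hK⟩ := Metric.cauchySeq_iff.mp hC ε hε
  set i := max K L with hi
  have h1 := hK i (le_max_left _ _) (i + 1) ((le_max_left K L).trans (Nat.le_succ _))
  refine ⟨φ i, φ (i + 1), (le_max_right K L).trans (hφ.id_le i), hφ (Nat.lt_succ_self i), ?_⟩
  intro n hn
  have h2 : dist (a (φ i) ⟨n, hn⟩) (a (φ (i + 1)) ⟨n, hn⟩) ≤ dist (a (φ i)) (a (φ (i + 1))) :=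
    dist_le_pi_dist _ _ _
  rw [dist_eq_norm] at h2
  have h3 : a (φ i) ⟨n, hn⟩ - a (φ (i + 1)) ⟨n, hn⟩ = f n (v (φ i) - v (φ (i + 1))) := by
    rw [map_sub]
  rw [h3] at h2
  exact h2.trans h1.le

/-- killing an infinite good sequence by a bounded perturbation -/
theorem stage2 (f : ℕ → (E →L[𝕜] 𝕜)) (Mf : ℝ) (hf : ∀ n, ‖f n‖ ≤ Mf)
    (hnull : ∀ z, Tendsto (fun n => f n z) atTop (𝓝 0))
    (v : ℕ → E) (g : ℕ → (E →L[𝕜] 𝕜)) (Cv Cg : ℝ) (hv : ∀ n, ‖v n‖ ≤ Cv) (hg : ∀ n, ‖g n‖ ≤ Cg)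
    (hgv : ∀ n, g n (v n) = 1) (hgv' : ∀ m n, m ≠ n → g m (v n) = 0) :
    ∃ (w : ℕ → E) (h : ℕ → (E →L[𝕜] 𝕜)) (f' : ℕ → (E →L[𝕜] 𝕜)) (C : ℝ),
      (∀ n, ‖w n‖ ≤ C) ∧ (∀ n, ‖h n‖ ≤ C) ∧ (∀ n, ‖f' n‖ ≤ C) ∧
      (∀ n, h n (w n) = 1) ∧ (∀ m n, m ≠ n → h m (w n) = 0) ∧ (∀ m n, f' m (w n) = 0) ∧
      (∀ z, (∀ i, g i z = 0) → (∀ j, h j z = 0) ∧ ∀ n, f' n z = f n z) := by
  classical
  have hMf : 0 ≤ Mf := (norm_nonneg _).trans (hf 0)
  have hCv : 0 ≤ Cv := (norm_nonneg _).trans (hv 0)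
  have hCg : 0 ≤ Cg := (norm_nonneg _).trans (hg 0)
  obtain ⟨d, hd1, hd2⟩ := exists_seq_of_forall_finset_exists
    (fun d : ℕ × ℕ × ℕ × ℕ => d.2.1 < d.2.2.1 ∧
      ∀ n < d.2.2.2, ‖f n (v d.2.1 - v d.2.2.1)‖ ≤ (1 / 2 : ℝ) ^ d.1)
    (fun d e => d.1 < e.1 ∧ d.2.2.1 < e.2.1 ∧
      ∀ n, e.2.2.2 ≤ n → ‖f n (v d.2.1 - v d.2.2.1)‖ ≤ (1 / 2 : ℝ) ^ d.1) (by
      intro s _
      have hth : ∀ d : ℕ × ℕ × ℕ × ℕ, ∃ N, ∀ n, N ≤ n →
          ‖f n (v d.2.1 - v d.2.2.1)‖ ≤ (1 / 2 : ℝ) ^ d.1 := by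
        intro d
        have h1 := (hnull (v d.2.1 - v d.2.2.1)).norm
        rw [norm_zero] at h1
        have h2 := h1.eventually (gt_mem_nhds (show (0 : ℝ) < (1 / 2 : ℝ) ^ d.1 by positivity))
        obtain ⟨N, hN⟩ := eventually_atTop.mp h2
        exact ⟨N, fun n hn => (hN n hn).le⟩
      choose th hth using hth
      let k := s.sup (fun d => d.1) + 1
      let L := s.sup (fun d => d.2.2.1) + 1
      let N := s.sup th
      obtain ⟨p, q, hLp, hpq, hpqN⟩ := close_pair f Mf hf v Cv hv N L ((1 / 2 : ℝ) ^ k) (by positivity)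
      refine ⟨(k, p, q, N), ⟨hpq, hpqN⟩, ?_⟩
      intro d hd
      refine ⟨?_, ?_, ?_⟩
      · exact Nat.lt_succ_of_le (Finset.le_sup (f := fun d : ℕ × ℕ × ℕ × ℕ => d.1) hd)
      · exact lt_of_lt_of_le (Nat.lt_succ_of_le
          (Finset.le_sup (f := fun d : ℕ × ℕ × ℕ × ℕ => d.2.2.1) hd)) hLp
      · intro n hn
        exact hth d n ((Finset.le_sup (f := th) hd).trans hn))
  let P : ℕ → ℕ := fun j => (d j).2.1
  let Q : ℕ → ℕ := fun j => (d j).2.2.1
  let w : ℕ → E := fun j => v (P j) - v (Q j)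
  let h : ℕ → (E →L[𝕜] 𝕜) := fun j => g (P j)
  have hPQ : ∀ j, P j < Q j := fun j => (hd1 j).1
  have hQP : ∀ i j, i < j → Q i < P j := fun i j hij => (hd2 i j hij).2.1
  have hPinj : ∀ i j, i ≠ j → P i ≠ P j := by
    intro i j hij
    rcases lt_or_gt_of_ne hij with h1 | h1
    · exact ((hPQ i).trans (hQP i j h1)).ne
    · exact ((hPQ j).trans (hQP j i h1)).ne'
  have hPQne : ∀ i j, P i ≠ Q j := by
    intro i j
    rcases lt_trichotomy i j with h1 | h1 | h1
    · exact ((hPQ i).trans ((hQP i j h1).trans (hPQ j))).ne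
    · rw [h1]; exact (hPQ j).ne
    · exact (hQP j i h1).ne'
  have hw : ∀ j, ‖w j‖ ≤ 2 * Cv := by
    intro j
    have := norm_sub_le (v (P j)) (v (Q j))
    have h1 := hv (P j)
    have h2 := hv (Q j)
    change ‖v (P j) - v (Q j)‖ ≤ _
    linarith
  have hfw : ∀ n j, ‖f n (w j)‖ ≤ Mf * (2 * Cv) := fun n j =>
    ((f n).le_opNorm (w j)).trans (mul_le_mul (hf n) (hw j) (norm_nonneg _) hMf)
  have hkj : ∀ j, j ≤ (d j).1 := by
    intro j
    induction j with
    | zero => exact Nat.zero_le _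
    | succ j ih => exact Nat.succ_le_of_lt (lt_of_le_of_lt ih (hd2 j (j + 1) (Nat.lt_succ_self j)).1)
  have hpow : ∀ j, (1 / 2 : ℝ) ^ (d j).1 ≤ (1 / 2 : ℝ) ^ j := fun j =>
    pow_le_pow_of_le_one (by norm_num) (by norm_num) (hkj j)
  -- finite sums are uniformly bounded
  have hsumfin : ∀ n, ∀ J : Finset ℕ, ∑ j ∈ J, ‖f n (w j)‖ ≤ Mf * (2 * Cv) + 2 := by
    intro n J
    let bad : Finset ℕ := J.filter (fun j => (1 / 2 : ℝ) ^ (d j).1 < ‖f n (w j)‖)
    have hbadcard : bad.card ≤ 1 := by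
      rw [Finset.card_le_one]
      intro i hi j hj
      by_contra hij
      wlog hlt : i < j generalizing i j with H
      · exact H j hj i hi (Ne.symm hij) (lt_of_le_of_ne (not_lt.mp hlt) (Ne.symm hij))
      have hi' := (Finset.mem_filter.mp hi).2
      have hj' := (Finset.mem_filter.mp hj).2
      have h1 : (d j).2.2.2 ≤ n := by
        by_contra hcon
        exact absurd ((hd1 j).2 n (not_le.mp hcon)) (not_le.mpr hj')
      exact absurd ((hd2 i j hlt).2.2 n h1) (not_le.mpr hi')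
    have hgood : ∑ j ∈ J.filter (fun j => ¬ (1 / 2 : ℝ) ^ (d j).1 < ‖f n (w j)‖), ‖f n (w j)‖ ≤ 2 := by
      have h1 : ∑ j ∈ J.filter (fun j => ¬ (1 / 2 : ℝ) ^ (d j).1 < ‖f n (w j)‖), ‖f n (w j)‖
          ≤ ∑ j ∈ J.filter (fun j => ¬ (1 / 2 : ℝ) ^ (d j).1 < ‖f n (w j)‖), (1 / 2 : ℝ) ^ j :=
        Finset.sum_le_sum fun j hj => (not_lt.mp (Finset.mem_filter.mp hj).2).trans (hpow j)
      have h2 : ∑ j ∈ J.filter (fun j => ¬ (1 / 2 : ℝ) ^ (d j).1 < ‖f n (w j)‖), (1 / 2 : ℝ) ^ j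
          ≤ ∑' j : ℕ, (1 / 2 : ℝ) ^ j :=
        summable_geometric_two.sum_le_tsum _ (fun j _ => by positivity)
      rw [tsum_geometric_two] at h2
      exact h1.trans h2
    have hbad : ∑ j ∈ bad, ‖f n (w j)‖ ≤ Mf * (2 * Cv) := by
      have h1 : ∑ j ∈ bad, ‖f n (w j)‖ ≤ ∑ _j ∈ bad, Mf * (2 * Cv) :=
        Finset.sum_le_sum fun j _ => hfw n j
      rw [Finset.sum_const, nsmul_eq_mul] at h1
      have h2 : (bad.card : ℝ) ≤ 1 := by exact_mod_cast hbadcard
      have h3 : 0 ≤ Mf * (2 * Cv) := by positivity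
      nlinarith
    rw [← Finset.sum_filter_add_sum_filter_not J (fun j => (1 / 2 : ℝ) ^ (d j).1 < ‖f n (w j)‖)]
    linarith
  have hsummable : ∀ n, Summable (fun j => ‖f n (w j)‖) := fun n =>
    summable_of_sum_le (fun j => norm_nonneg _) (hsumfin n)
  have htsum : ∀ n, ∑' j, ‖f n (w j)‖ ≤ Mf * (2 * Cv) + 2 := fun n =>
    (hsummable n).tsum_le_of_sum_le (hsumfin n)
  have hsg : ∀ n, Summable (fun j => ‖f n (w j)‖ * Cg) := fun n => (hsummable n).mul_right Cg
  have hbd : ∀ n j, ‖(f n (w j)) • h j‖ ≤ ‖f n (w j)‖ * Cg := by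
    intro n j
    rw [norm_smul]
    exact mul_le_mul_of_nonneg_left (hg _) (norm_nonneg _)
  have hsum2 : ∀ n, Summable (fun j => (f n (w j)) • h j) := fun n =>
    Summable.of_norm_bounded (hsg n) (hbd n)
  let u : ℕ → (E →L[𝕜] 𝕜) := fun n => ∑' j, (f n (w j)) • h j
  have hu_apply : ∀ n z, u n z = ∑' j, (f n (w j)) * h j z := by
    intro n z
    have h1 := (ContinuousLinearMap.apply 𝕜 𝕜 z).map_tsum (hsum2 n)
    simpa using h1
  have hun : ∀ n, ‖u n‖ ≤ (Mf * (2 * Cv) + 2) * Cg := by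
    intro n
    have h1 : ‖u n‖ ≤ ∑' j, ‖f n (w j)‖ * Cg := tsum_of_norm_bounded (hsg n).hasSum (hbd n)
    rw [tsum_mul_right] at h1
    exact h1.trans (mul_le_mul_of_nonneg_right (htsum n) hCg)
  have hhw : ∀ n, h n (w n) = 1 := by
    intro n
    change g (P n) (v (P n) - v (Q n)) = 1
    rw [map_sub, hgv, hgv' _ _ (hPQne n n), sub_zero]
  have hhw' : ∀ m n, m ≠ n → h m (w n) = 0 := by
    intro m n hmn
    change g (P m) (v (P n) - v (Q n)) = 0
    rw [map_sub, hgv' _ _ (hPinj m n hmn), hgv' _ _ (hPQne m n), sub_zero]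
  let C := max (max (2 * Cv) Cg) (Mf + (Mf * (2 * Cv) + 2) * Cg)
  refine ⟨w, h, fun n => f n - u n, C, ?_, ?_, ?_, hhw, hhw', ?_, ?_⟩
  · intro n
    exact (hw n).trans ((le_max_left _ _).trans (le_max_left _ _))
  · intro n
    exact (hg _).trans ((le_max_right _ _).trans (le_max_left _ _))
  · intro n
    exact ((norm_sub_le _ _).trans (add_le_add (hf n) (hun n))).trans (le_max_right _ _)
  · intro m n
    change f m (w n) - u m (w n) = 0
    rw [hu_apply, tsum_eq_single n]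
    · rw [hhw, mul_one, sub_self]
    · intro j hj
      rw [hhw' j n hj, mul_zero]
  · intro z hz
    refine ⟨fun j => hz _, fun n => ?_⟩
    change f n z - u n z = f n z
    rw [hu_apply]
    have : ∀ j, (f n (w j)) * h j z = 0 := by
      intro j
      rw [show h j z = 0 from hz _, mul_zero]
    simp only [this, tsum_zero, sub_zero]

/-- a functional separating a point from a closed subspace -/
theorem sep_point (S : Submodule 𝕜 E) (hS : IsClosed (S : Set E)) (r : E) (hr : r ∉ S) :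
    ∃ g : E →L[𝕜] 𝕜, (∀ s ∈ S, g s = 0) ∧ g r = 1 := by
  have : IsClosed (S : Set E) := hS
  have hne : (Submodule.Quotient.mk r : E ⧸ S) ≠ 0 := fun h =>
    hr ((Submodule.Quotient.mk_eq_zero S).mp h)
  have hn : ‖(Submodule.Quotient.mk r : E ⧸ S)‖ ≠ 0 := norm_ne_zero_iff.mpr hne
  obtain ⟨g, _, hg2⟩ := exists_dual_vector 𝕜 (Submodule.Quotient.mk r : E ⧸ S) hn
  let G : E →L[𝕜] 𝕜 := (((‖(Submodule.Quotient.mk r : E ⧸ S)‖ : ℝ) : 𝕜)⁻¹) • (g.comp S.mkQL)
  have hG : ∀ x, G x = (((‖(Submodule.Quotient.mk r : E ⧸ S)‖ : ℝ) : 𝕜)⁻¹)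
      * g (Submodule.Quotient.mk x) := fun x => rfl
  refine ⟨G, ?_, ?_⟩
  · intro s hs
    rw [hG, (Submodule.Quotient.mk_eq_zero S).mpr hs, map_zero, mul_zero]
  · rw [hG, hg2]
    exact inv_mul_cancel₀ (by exact_mod_cast hn)

/-- Gram-Schmidt type completion -/
theorem stage3 [TopologicalSpace.SeparableSpace E] (S Z : Submodule 𝕜 E)
    (hS : IsClosed (S : Set E)) (hdense : Dense ((S ⊔ Z : Submodule 𝕜 E) : Set E)) :
    ∃ (y : ℕ → E) (h : ℕ → (E →L[𝕜] 𝕜)), (∀ k, y k ∈ Z) ∧ (∀ k, ∀ s ∈ S, h k s = 0) ∧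
      (∀ i j, i ≠ j → h i (y j) = 0) ∧ (∀ k, h k (y k) = 1 ∨ (y k = 0 ∧ h k = 0)) ∧
      Dense ((S ⊔ Submodule.span 𝕜 (Set.range y) : Submodule 𝕜 E) : Set E) := by
  classical
  have hsc : SecondCountableTopology E := UniformSpace.secondCountable_of_separable E
  let z : ℕ → E := fun k => ((TopologicalSpace.denseSeq Z k : Z) : E)
  have hzZ : ∀ k, z k ∈ Z := fun k => (TopologicalSpace.denseSeq Z k : Z).2
  let res : (k : ℕ) → (∀ i, i < k → E × (E →L[𝕜] 𝕜)) → E := fun k prev =>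
    z k - ∑ i : Fin k, (prev i i.2).2 (z k) • (prev i i.2).1
  let nextPair : (k : ℕ) → (∀ i, i < k → E × (E →L[𝕜] 𝕜)) → E × (E →L[𝕜] 𝕜) := fun k prev =>
    if H : ∃ g : E →L[𝕜] 𝕜, (∀ s ∈ S, g s = 0) ∧ (∀ i : Fin k, g (prev i i.2).1 = 0) ∧
        g (res k prev) = 1 then (res k prev, Classical.choose H) else (0, 0)
  let D : ℕ → E × (E →L[𝕜] 𝕜) := WellFoundedLT.fix nextPair
  have hD : ∀ k, D k = nextPair k (fun i _ => D i) := fun k => WellFoundedLT.fix_eq _ k
  let r : ℕ → E := fun k => z k - ∑ i ∈ Finset.range k, (D i).2 (z k) • (D i).1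
  have hres : ∀ k, res k (fun i _ => D i) = r k := by
    intro k
    simp only [res, r]
    rw [Finset.sum_range (fun i => (D i).2 (z k) • (D i).1)]
  -- dichotomy
  have hdich : ∀ k, (∃ g : E →L[𝕜] 𝕜, (∀ s ∈ S, g s = 0) ∧ (∀ i < k, g (D i).1 = 0) ∧
      g (r k) = 1 ∧ D k = (r k, g)) ∨
      ((¬ ∃ g : E →L[𝕜] 𝕜, (∀ s ∈ S, g s = 0) ∧ (∀ i < k, g (D i).1 = 0) ∧
      g (r k) = 1) ∧ D k = (0, 0)) := by
    intro k
    by_cases H : ∃ g : E →L[𝕜] 𝕜, (∀ s ∈ S, g s = 0) ∧ (∀ i : Fin k, g (D i).1 = 0) ∧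
        g (res k (fun i _ => D i)) = 1
    · left
      have h1 : D k = (res k (fun i _ => D i), Classical.choose H) := by
        rw [hD k]
        exact dif_pos H
      have h2 := Classical.choose_spec H
      refine ⟨Classical.choose H, h2.1, fun i hi => h2.2.1 ⟨i, hi⟩, ?_, ?_⟩
      · rw [← hres]; exact h2.2.2
      · rw [← hres]; exact h1
    · right
      constructor
      · rintro ⟨g, hg1, hg2, hg3⟩
        exact H ⟨g, hg1, fun i => hg2 i i.2, by rw [hres]; exact hg3⟩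
      · rw [hD k]
        exact dif_neg H
  -- invariants
  have hinv : ∀ k, (D k).1 ∈ Z ∧ (∀ s ∈ S, (D k).2 s = 0) ∧
      (∀ i < k, (D k).2 (D i).1 = 0 ∧ (D i).2 (D k).1 = 0) ∧
      ((D k).2 (D k).1 = 1 ∨ D k = (0, 0)) ∧ (∀ i < k, (D i).2 (r k) = 0) := by
    intro k
    induction k using Nat.strong_induction_on with
    | _ k ih =>
      have hr0 : ∀ i < k, (D i).2 (r k) = 0 := by
        intro i hi
        simp only [r, map_sub, map_sum, map_smul, smul_eq_mul]
        rcases (ih i hi).2.2.2.1 with h1 | h1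
        · rw [Finset.sum_eq_single i]
          · rw [h1, mul_one, sub_self]
          · intro j hj hji
            have hj' := Finset.mem_range.mp hj
            rcases lt_or_gt_of_ne hji with h2 | h2
            · rw [((ih i hi).2.2.1 j h2).1, mul_zero]
            · rw [((ih j hj').2.2.1 i h2).2, mul_zero]
          · intro h2
            exact absurd (Finset.mem_range.mpr hi) h2
        · rw [h1]
          simp
      have hrZ : r k ∈ Z := by
        refine Z.sub_mem (hzZ k) (Z.sum_mem fun i hi => Z.smul_mem _ ?_)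
        exact (ih i (Finset.mem_range.mp hi)).1
      rcases hdich k with ⟨g, hg1, hg2, hg3, hg4⟩ | ⟨_, hg4⟩
      · refine ⟨by rw [hg4]; exact hrZ, by rw [hg4]; exact hg1, ?_, Or.inl (by rw [hg4]; exact hg3), hr0⟩
        intro i hi
        constructor
        · rw [hg4]; exact hg2 i hi
        · rw [hg4]; exact hr0 i hi
      · refine ⟨by rw [hg4]; exact Z.zero_mem, by rw [hg4]; intro s _; rfl, ?_, Or.inr hg4, hr0⟩
        intro i hi
        constructor
        · rw [hg4]; rfl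
        · rw [hg4]; exact map_zero _
  -- the residual is in S in the skipped case
  have hskip : ∀ k, D k = (0, 0) → r k ∈ S := by
    intro k hk
    by_contra hrS
    obtain ⟨g0, hg01, hg02⟩ := sep_point S hS (r k) hrS
    rcases hdich k with ⟨g, hg1, hg2, hg3, hg4⟩ | ⟨hno, _⟩
    · rw [hk] at hg4
      have : r k = 0 := (congrArg Prod.fst hg4).symm
      rw [this, map_zero] at hg3
      exact zero_ne_one hg3
    · apply hno
      refine ⟨g0 - ∑ i ∈ Finset.range k, g0 (D i).1 • (D i).2, ?_, ?_, ?_⟩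
      · intro s hs
        rw [sub_apply, hg01 s hs, sum_apply, zero_sub, neg_eq_zero]
        apply Finset.sum_eq_zero
        intro i _
        rw [smul_apply, (hinv i).2.1 s hs, smul_zero]
      · intro j hj
        rw [sub_apply, sum_apply]
        rw [Finset.sum_eq_single j]
        · rw [smul_apply, smul_eq_mul]
          rcases (hinv j).2.2.2.1 with h1 | h1
          · rw [h1, mul_one, sub_self]
          · rw [h1]; simp
        · intro i hi hij
          rw [smul_apply]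
          rcases lt_or_gt_of_ne hij with h2 | h2
          · rw [((hinv j).2.2.1 i h2).2, smul_zero]
          · rw [((hinv i).2.2.1 j h2).1, smul_zero]
        · intro h2
          exact absurd (Finset.mem_range.mpr hj) h2
      · rw [sub_apply, sum_apply, hg02]
        rw [Finset.sum_eq_zero, sub_zero]
        intro i hi
        rw [smul_apply, (hinv k).2.2.2.2 i (Finset.mem_range.mp hi), smul_zero]
  refine ⟨fun k => (D k).1, fun k => (D k).2, fun k => (hinv k).1, fun k => (hinv k).2.1, ?_, ?_, ?_⟩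
  · intro i j hij
    rcases lt_or_gt_of_ne hij with h | h
    · exact ((hinv j).2.2.1 i h).2
    · exact ((hinv i).2.2.1 j h).1
  · intro k
    rcases (hinv k).2.2.2.1 with h | h
    · exact Or.inl h
    · exact Or.inr ⟨congrArg Prod.fst h, congrArg Prod.snd h⟩
  · set T : Submodule 𝕜 E := S ⊔ Submodule.span 𝕜 (Set.range fun k => (D k).1) with hT
    have hzT : ∀ k, z k ∈ T := by
      intro k
      have hz : z k = r k + ∑ i ∈ Finset.range k, (D i).2 (z k) • (D i).1 := by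
        simp only [r]; abel
      rw [hz]
      refine T.add_mem ?_ ?_
      · rcases hdich k with ⟨g, _, _, _, hg4⟩ | ⟨_, hg4⟩
        · refine Submodule.mem_sup_right (Submodule.subset_span ⟨k, ?_⟩)
          simp only [hg4]
        · exact Submodule.mem_sup_left (hskip k hg4)
      · refine Submodule.mem_sup_right (Submodule.sum_mem _ fun i _ => Submodule.smul_mem _ _ ?_)
        exact Submodule.subset_span ⟨i, rfl⟩
    have hcl : ((S ⊔ Z : Submodule 𝕜 E) : Set E) ⊆ (T.topologicalClosure : Set E) := by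
      have h1 : S ≤ T.topologicalClosure := le_sup_left.trans T.le_topologicalClosure
      have h2 : Z ≤ T.topologicalClosure := by
        intro a ha
        have h3 : (⟨a, ha⟩ : Z) ∈ closure (Set.range (TopologicalSpace.denseSeq Z)) :=
          TopologicalSpace.denseRange_denseSeq Z _
        have h4 : a ∈ closure (Set.range z) := by
          have h5 := image_closure_subset_closure_image (continuous_subtype_val (p := fun x => x ∈ Z))
            ⟨⟨a, ha⟩, h3, rfl⟩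
          rw [← Set.range_comp] at h5
          exact h5
        refine closure_minimal ?_ T.isClosed_topologicalClosure h4
        rintro _ ⟨k, rfl⟩
        exact T.le_topologicalClosure (hzT k)
      exact sup_le h1 h2
    have h1 : Dense (T.topologicalClosure : Set E) := hdense.mono hcl
    rw [Submodule.topologicalClosure_coe] at h1
    exact dense_closure.mp h1

/-- pairings between spans vanish if they vanish on generators -/
theorem span_pair_zero {A : Set E} {A' : Set (E →L[𝕜] 𝕜)} (h : ∀ a' ∈ A', ∀ a ∈ A, a' a = 0)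
    {v : E} {η : E →L[𝕜] 𝕜} (hv : v ∈ Submodule.span 𝕜 A) (hη : η ∈ Submodule.span 𝕜 A') :
    η v = 0 := by
  induction hη using Submodule.span_induction with
  | mem z hz =>
    induction hv using Submodule.span_induction with
    | mem y hy => exact h z hz y hy
    | zero => exact map_zero z
    | add y1 y2 _ _ h1 h2 => rw [map_add, h1, h2, add_zero]
    | smul t y _ h1 => rw [map_smul, h1, smul_zero]
  | zero => rfl
  | add z1 z2 _ _ h1 h2 => rw [add_apply, h1, h2, add_zero]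
  | smul t z _ h1 => rw [smul_apply, h1, smul_zero]

/-- the scalar 1/√2 -/
theorem exists_half : ∃ s : 𝕜, s * s = 2⁻¹ ∧ ‖s‖ ≤ 3 / 4 := by
  refine ⟨((Real.sqrt (1 / 2) : ℝ) : 𝕜), ?_, ?_⟩
  · rw [← RCLike.ofReal_mul, Real.mul_self_sqrt (by norm_num)]
    push_cast
    norm_num
  · rw [RCLike.norm_ofReal, abs_of_nonneg (Real.sqrt_nonneg _)]
    rw [Real.sqrt_le_left (by norm_num)]
    norm_num

/-- mixing a bad pair with infinitely many good pairs -/
theorem mixing (C0 : ℝ) (hC0 : 0 ≤ C0) (m : ℕ) : ∀ (B : ℝ), B ≤ 3 * C0 + (4 / 3 : ℝ) ^ m →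
    ∀ (v0 : E) (η0 : E →L[𝕜] 𝕜) (g : ℕ → E) (γ : ℕ → (E →L[𝕜] 𝕜)),
    ‖v0‖ ≤ B → ‖η0‖ ≤ B → (∀ j, ‖g j‖ ≤ C0) → (∀ j, ‖γ j‖ ≤ C0) → η0 v0 = 1 →
    (∀ j, η0 (g j) = 0) → (∀ j, γ j v0 = 0) → (∀ j, γ j (g j) = 1) →
    (∀ i j, i ≠ j → γ i (g j) = 0) →
    ∃ (J : Type) (_ : Countable J) (v' : J → E) (η' : J → (E →L[𝕜] 𝕜)),
      (∀ a, η' a (v' a) = 1) ∧ (∀ a b, a ≠ b → η' a (v' b) = 0) ∧
      (∀ a, ‖v' a‖ ≤ 3 * C0 + 1) ∧ (∀ a, ‖η' a‖ ≤ 3 * C0 + 1) ∧
      v0 ∈ Submodule.span 𝕜 (Set.range v') ∧ (∀ j, g j ∈ Submodule.span 𝕜 (Set.range v')) ∧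
      (∀ a, v' a ∈ Submodule.span 𝕜 (insert v0 (Set.range g))) ∧
      (∀ a, η' a ∈ Submodule.span 𝕜 (insert η0 (Set.range γ))) := by
  induction m with
  | zero =>
    intro B hB v0 η0 g γ hv0 hη0 hg hγ h00 h0g hγ0 hgg hgg'
    rw [pow_zero] at hB
    refine ⟨Option ℕ, inferInstance, fun o => o.elim v0 g, fun o => o.elim η0 γ, ?_, ?_, ?_, ?_, ?_,
      ?_, ?_, ?_⟩
    · rintro (_ | a)
      · exact h00
      · exact hgg a
    · rintro (_ | a) (_ | b) hab
      · exact absurd rfl hab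
      · exact h0g b
      · exact hγ0 a
      · exact hgg' a b (fun h => hab (by rw [h]))
    · rintro (_ | a)
      · exact hv0.trans hB
      · exact (hg a).trans (by linarith)
    · rintro (_ | a)
      · exact hη0.trans hB
      · exact (hγ a).trans (by linarith)
    · exact Submodule.subset_span ⟨none, rfl⟩
    · exact fun j => Submodule.subset_span ⟨some j, rfl⟩
    · rintro (_ | a)
      · exact Submodule.subset_span (Set.mem_insert _ _)
      · exact Submodule.subset_span (Set.mem_insert_of_mem _ ⟨a, rfl⟩)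
    · rintro (_ | a)
      · exact Submodule.subset_span (Set.mem_insert _ _)
      · exact Submodule.subset_span (Set.mem_insert_of_mem _ ⟨a, rfl⟩)
  | succ m ih =>
    intro B hB v0 η0 g γ hv0 hη0 hg hγ h00 h0g hγ0 hgg hgg'
    obtain ⟨s, hs, hsn⟩ := exists_half (𝕜 := 𝕜)
    have hB0 : 0 ≤ B := (norm_nonneg _).trans hv0
    have hB' : 3 / 4 * (B + C0) ≤ 3 * C0 + (4 / 3 : ℝ) ^ m := by
      rw [pow_succ] at hB
      linarith
    have hnv : ∀ u w : E, ‖u‖ ≤ B → ‖w‖ ≤ C0 → ‖s • (u + w)‖ ≤ 3 / 4 * (B + C0) := by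
      intro u w hu hw
      rw [norm_smul]
      exact mul_le_mul hsn ((norm_add_le _ _).trans (add_le_add hu hw)) (norm_nonneg _) (by norm_num)
    have hnf : ∀ u w : E →L[𝕜] 𝕜, ‖u‖ ≤ B → ‖w‖ ≤ C0 → ‖s • (u + w)‖ ≤ 3 / 4 * (B + C0) := by
      intro u w hu hw
      rw [norm_smul]
      exact mul_le_mul hsn ((norm_add_le _ _).trans (add_le_add hu hw)) (norm_nonneg _) (by norm_num)
    have h00' : γ 0 (g 0) = 1 := hgg 0
    have hss : s * (s * 2) = 1 := by
      rw [← mul_assoc, hs]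
      norm_num
    obtain ⟨J1, hJ1, v1, η1, a1, a2, a3, a4, a5, a6, a7, a8⟩ := ih _ hB'
      (s • (v0 + g 0)) (s • (η0 + γ 0)) (fun j => g (2 * j + 1)) (fun j => γ (2 * j + 1))
      (hnv _ _ hv0 (hg 0)) (hnf _ _ hη0 (hγ 0)) (fun j => hg _) (fun j => hγ _)
      (by
        simp only [map_smul, map_add, smul_apply, add_apply, smul_eq_mul, h00, h0g, hγ0, hgg]
        linear_combination hss)
      (fun j => by
        simp only [smul_apply, add_apply, smul_eq_mul, h0g, hgg' 0 (2 * j + 1) (by omega)]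
        ring)
      (fun j => by
        simp only [map_smul, map_add, smul_eq_mul, hγ0, hgg' (2 * j + 1) 0 (by omega)]
        ring)
      (fun j => hgg _) (fun i j hij => hgg' _ _ (by omega))
    obtain ⟨J2, hJ2, v2, η2, b1, b2, b3, b4, b5, b6, b7, b8⟩ := ih _ hB'
      (s • (v0 + -g 0)) (s • (η0 + -γ 0)) (fun j => g (2 * j + 2)) (fun j => γ (2 * j + 2))
      (hnv _ _ hv0 (by rw [norm_neg]; exact hg 0)) (hnf _ _ hη0 (by rw [norm_neg]; exact hγ 0))
      (fun j => hg _) (fun j => hγ _)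
      (by
        simp only [map_smul, map_add, map_neg, smul_apply, add_apply, neg_apply, smul_eq_mul, h00,
          h0g, hγ0, hgg]
        linear_combination hss)
      (fun j => by
        simp only [smul_apply, add_apply, neg_apply, smul_eq_mul, h0g,
          hgg' 0 (2 * j + 2) (by omega)]
        ring)
      (fun j => by
        simp only [map_smul, map_add, map_neg, smul_eq_mul, hγ0, hgg' (2 * j + 2) 0 (by omega)]
        ring)
      (fun j => hgg _) (fun i j hij => hgg' _ _ (by omega))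
    have hcross12 : ∀ a b, η1 a (v2 b) = 0 := by
      intro a b
      refine span_pair_zero ?_ (b7 b) (a8 a)
      rintro a' (rfl | ⟨i, rfl⟩) u (rfl | ⟨j, rfl⟩)
      · simp only [map_smul, map_add, map_neg, smul_apply, add_apply, smul_eq_mul, h00,
          h0g, hγ0, hgg]
        ring
      · simp only [smul_apply, add_apply, smul_eq_mul, h0g, hgg' 0 (2 * j + 2) (by omega)]
        ring
      · simp only [map_smul, map_add, map_neg, smul_eq_mul, hγ0, hgg' (2 * i + 1) 0 (by omega)]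
        ring
      · exact hgg' _ _ (by omega)
    have hcross21 : ∀ a b, η2 a (v1 b) = 0 := by
      intro a b
      refine span_pair_zero ?_ (a7 b) (b8 a)
      rintro a' (rfl | ⟨i, rfl⟩) u (rfl | ⟨j, rfl⟩)
      · simp only [map_smul, map_add, smul_apply, add_apply, neg_apply, smul_eq_mul, h00,
          h0g, hγ0, hgg]
        ring
      · simp only [smul_apply, add_apply, neg_apply, smul_eq_mul, h0g,
          hgg' 0 (2 * j + 1) (by omega)]
        ring
      · simp only [map_smul, map_add, smul_eq_mul, hγ0, hgg' (2 * i + 2) 0 (by omega)]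
        ring
      · exact hgg' _ _ (by omega)
    have hl : ∀ u, u ∈ Submodule.span 𝕜 (Set.range v1) →
        u ∈ Submodule.span 𝕜 (Set.range (Sum.elim v1 v2)) := by
      intro u hu
      refine Submodule.span_mono ?_ hu
      rintro _ ⟨i, rfl⟩
      exact ⟨Sum.inl i, rfl⟩
    have hr : ∀ u, u ∈ Submodule.span 𝕜 (Set.range v2) →
        u ∈ Submodule.span 𝕜 (Set.range (Sum.elim v1 v2)) := by
      intro u hu
      refine Submodule.span_mono ?_ hu
      rintro _ ⟨i, rfl⟩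
      exact ⟨Sum.inr i, rfl⟩
    refine ⟨J1 ⊕ J2, inferInstance, Sum.elim v1 v2, Sum.elim η1 η2, ?_, ?_, ?_, ?_, ?_, ?_, ?_, ?_⟩
    · rintro (a | a)
      · exact a1 a
      · exact b1 a
    · rintro (a | a) (b | b) hab
      · exact a2 a b (fun h => hab (by rw [h]))
      · exact hcross12 a b
      · exact hcross21 a b
      · exact b2 a b (fun h => hab (by rw [h]))
    · rintro (a | a)
      · exact a3 a
      · exact b3 a
    · rintro (a | a)
      · exact a4 a
      · exact b4 a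
    · have h1 : v0 = s • (s • (v0 + g 0)) + s • (s • (v0 + -g 0)) := by
        rw [← smul_add, ← smul_add, add_add_add_comm, add_neg_cancel, add_zero, ← two_smul 𝕜 v0,
          smul_smul, smul_smul, mul_assoc, hss, one_smul]
      rw [h1]
      exact Submodule.add_mem _ (Submodule.smul_mem _ _ (hl _ a5)) (Submodule.smul_mem _ _ (hr _ b5))
    · intro j
      rcases Nat.even_or_odd' j with ⟨i, rfl | rfl⟩
      · rcases Nat.eq_zero_or_pos i with rfl | hi
        · have h1 : g 0 = s • (s • (v0 + g 0)) - s • (s • (v0 + -g 0)) := by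
            rw [← smul_sub, ← smul_sub, add_sub_add_left_eq_sub, sub_neg_eq_add, ← two_smul 𝕜 (g 0),
              smul_smul, smul_smul, mul_assoc, hss, one_smul]
          rw [mul_zero, h1]
          exact Submodule.sub_mem _ (Submodule.smul_mem _ _ (hl _ a5))
            (Submodule.smul_mem _ _ (hr _ b5))
        · have h1 : 2 * i = 2 * (i - 1) + 2 := by omega
          rw [h1]
          exact hr _ (b6 (i - 1))
      · exact hl _ (a6 i)
    · rintro (a | a)
      · refine Submodule.span_le.mpr ?_ (a7 a)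
        rintro _ (rfl | ⟨i, rfl⟩)
        · exact Submodule.smul_mem _ _ (Submodule.add_mem _
            (Submodule.subset_span (Set.mem_insert _ _))
            (Submodule.subset_span (Set.mem_insert_of_mem _ ⟨0, rfl⟩)))
        · exact Submodule.subset_span (Set.mem_insert_of_mem _ ⟨_, rfl⟩)
      · refine Submodule.span_le.mpr ?_ (b7 a)
        rintro _ (rfl | ⟨i, rfl⟩)
        · exact Submodule.smul_mem _ _ (Submodule.add_mem _
            (Submodule.subset_span (Set.mem_insert _ _))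
            (Submodule.neg_mem _ (Submodule.subset_span (Set.mem_insert_of_mem _ ⟨0, rfl⟩))))
        · exact Submodule.subset_span (Set.mem_insert_of_mem _ ⟨_, rfl⟩)
    · rintro (a | a)
      · refine Submodule.span_le.mpr ?_ (a8 a)
        rintro _ (rfl | ⟨i, rfl⟩)
        · exact Submodule.smul_mem _ _ (Submodule.add_mem _
            (Submodule.subset_span (Set.mem_insert _ _))
            (Submodule.subset_span (Set.mem_insert_of_mem _ ⟨0, rfl⟩)))
        · exact Submodule.subset_span (Set.mem_insert_of_mem _ ⟨_, rfl⟩)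
      · refine Submodule.span_le.mpr ?_ (b8 a)
        rintro _ (rfl | ⟨i, rfl⟩)
        · exact Submodule.smul_mem _ _ (Submodule.add_mem _
            (Submodule.subset_span (Set.mem_insert _ _))
            (Submodule.neg_mem _ (Submodule.subset_span (Set.mem_insert_of_mem _ ⟨0, rfl⟩))))
        · exact Submodule.subset_span (Set.mem_insert_of_mem _ ⟨_, rfl⟩)

/-- two bounded biorthogonal families combined into one sequence -/
theorem combine {J : Type} [Countable J] (x : ℕ → E) (f : ℕ → (E →L[𝕜] 𝕜)) (y : J → E)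
    (h : J → (E →L[𝕜] 𝕜)) (C : ℝ) (hx : ∀ n, ‖x n‖ ≤ C) (hf : ∀ n, ‖f n‖ ≤ C)
    (hy : ∀ n, ‖y n‖ ≤ C) (hh : ∀ n, ‖h n‖ ≤ C) (hfx : ∀ n, f n (x n) = 1)
    (hfx' : ∀ m n, m ≠ n → f m (x n) = 0) (hhy : ∀ n, h n (y n) = 1)
    (hhy' : ∀ m n, m ≠ n → h m (y n) = 0) (hfy : ∀ m n, f m (y n) = 0)
    (hhx : ∀ m n, h m (x n) = 0) :
    ∃ (e : ℕ ⊕ J ≃ ℕ) (s : ℕ → E) (F : ℕ → (E →L[𝕜] 𝕜)),
      (∀ n, s (e (Sum.inl n)) = x n) ∧ (∀ n, s (e (Sum.inr n)) = y n) ∧
      (∀ n, F (e (Sum.inl n)) = f n) ∧ (∀ n, F (e (Sum.inr n)) = h n) ∧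
      (∀ n, ‖s n‖ ≤ C) ∧ (∀ n, ‖F n‖ ≤ C) ∧ (∀ n, F n (s n) = 1) ∧
      (∀ m n, m ≠ n → F m (s n) = 0) := by
  obtain ⟨e⟩ : Nonempty (ℕ ⊕ J ≃ ℕ) := nonempty_equiv_of_countable
  have hb1 : ∀ a : ℕ ⊕ J, ‖Sum.elim x y a‖ ≤ C := by
    rintro (a | a)
    · exact hx a
    · exact hy a
  have hb2 : ∀ a : ℕ ⊕ J, ‖Sum.elim f h a‖ ≤ C := by
    rintro (a | a)
    · exact hf a
    · exact hh a
  have hb3 : ∀ a : ℕ ⊕ J, (Sum.elim f h a) (Sum.elim x y a) = 1 := by
    rintro (a | a)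
    · exact hfx a
    · exact hhy a
  have hb4 : ∀ a b : ℕ ⊕ J, a ≠ b → (Sum.elim f h a) (Sum.elim x y b) = 0 := by
    rintro (a | a) (b | b) hab
    · exact hfx' a b (fun h => hab (by rw [h]))
    · exact hfy a b
    · exact hhx a b
    · exact hhy' a b (fun h => hab (by rw [h]))
  refine ⟨e, fun n => Sum.elim x y (e.symm n), fun n => Sum.elim f h (e.symm n), ?_, ?_, ?_, ?_,
    fun n => hb1 _, fun n => hb2 _, fun n => hb3 _, fun m n hmn => hb4 _ _ (fun h => hmn (by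
      simpa using h))⟩
  · intro n; simp
  · intro n; simp
  · intro n; simp
  · intro n; simp

/-- boundedness and convergence on a dense set -/
theorem null_of_dense (f : ℕ → (E →L[𝕜] 𝕜)) (C : ℝ) (hf : ∀ n, ‖f n‖ ≤ C) (D : Set E)
    (hD : Dense D) (h : ∀ d ∈ D, Tendsto (fun n => f n d) atTop (𝓝 0)) (z : E) :
    Tendsto (fun n => f n z) atTop (𝓝 0) := by
  have hC : 0 ≤ C := (norm_nonneg _).trans (hf 0)
  rw [Metric.tendsto_atTop]
  intro ε hε
  obtain ⟨d, hd, hdz⟩ := Metric.mem_closure_iff.mp (hD z) (ε / (2 * (C + 1))) (by positivity)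
  obtain ⟨N, hN⟩ := (Metric.tendsto_atTop.mp (h d hd)) (ε / 2) (by positivity)
  refine ⟨N, fun n hn => ?_⟩
  have h1 := hN n hn
  rw [dist_zero_right] at h1 ⊢
  have h2 : f n z = f n (z - d) + f n d := by rw [← map_add]; congr 1; abel
  have h3 : ‖f n (z - d)‖ ≤ C * (ε / (2 * (C + 1))) := by
    rw [dist_eq_norm] at hdz
    exact ((f n).le_opNorm _).trans (mul_le_mul (hf n) hdz.le (norm_nonneg _) hC)
  have h4 : C * (ε / (2 * (C + 1))) ≤ ε / 2 := by
    rw [mul_div_assoc', div_le_div_iff₀ (by positivity) (by norm_num)]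
    nlinarith
  rw [h2]
  have := norm_add_le (f n (z - d)) (f n d)
  linarith

/-- the functionals from the main construction are weak* null -/
theorem null_of_main (x : ℕ → E) (f : ℕ → (E →L[𝕜] 𝕜)) (C : ℝ) (hf : ∀ n, ‖f n‖ ≤ C)
    (hfx' : ∀ m n, m ≠ n → f m (x n) = 0)
    (hd : Dense (((Submodule.span 𝕜 (Set.range x)).topologicalClosure
        ⊔ ⨅ n, LinearMap.ker (f n : E →ₗ[𝕜] 𝕜) : Submodule 𝕜 E) : Set E)) (z : E) :
    Tendsto (fun n => f n z) atTop (𝓝 0) := by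
  have hspan : ∀ s ∈ Submodule.span 𝕜 (Set.range x), Tendsto (fun n => f n s) atTop (𝓝 0) := by
    intro s hs
    induction hs using Submodule.span_induction with
    | mem y hy =>
      obtain ⟨k, rfl⟩ := hy
      refine tendsto_const_nhds.congr' ?_
      filter_upwards [eventually_gt_atTop k] with n hn
      exact (hfx' n k hn.ne').symm
    | zero => simp
    | add a b _ _ ha hb =>
      have := ha.add hb
      simpa using this
    | smul t a _ ha =>
      have := ha.const_mul t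
      simpa using this
  refine null_of_dense f C hf ((Submodule.span 𝕜 (Set.range x)
        ⊔ ⨅ n, LinearMap.ker (f n : E →ₗ[𝕜] 𝕜) : Submodule 𝕜 E) : Set E) ?_ ?_ z
  · rw [← dense_closure]
    refine hd.mono ?_
    rw [← Submodule.topologicalClosure_coe]
    have h1 : (Submodule.span 𝕜 (Set.range x)).topologicalClosure ≤ (Submodule.span 𝕜 (Set.range x)
        ⊔ ⨅ n, LinearMap.ker (f n : E →ₗ[𝕜] 𝕜) : Submodule 𝕜 E).topologicalClosure :=
      Submodule.topologicalClosure_mono le_sup_left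
    have h2 : (⨅ n, LinearMap.ker (f n : E →ₗ[𝕜] 𝕜)) ≤ (Submodule.span 𝕜 (Set.range x)
        ⊔ ⨅ n, LinearMap.ker (f n : E →ₗ[𝕜] 𝕜) : Submodule 𝕜 E).topologicalClosure :=
      le_sup_right.trans (Submodule.le_topologicalClosure _)
    exact sup_le h1 h2
  · intro d hd'
    obtain ⟨a, ha, b, hb, rfl⟩ := Submodule.mem_sup.mp hd'
    have h1 : ∀ n, f n (a + b) = f n a := by
      intro n
      have h2 : f n b = 0 := (Submodule.mem_iInf _).mp hb n
      rw [map_add, h2, add_zero]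
    simp only [h1]
    exact hspan a ha

theorem top_of_dense (T A : Submodule 𝕜 E) (hT : IsClosed (T : Set E)) (hA : Dense (A : Set E))
    (h : A ≤ T) : T = ⊤ := by
  rw [eq_top_iff]
  intro a _
  have h1 : a ∈ closure (A : Set E) := hA a
  exact closure_minimal h hT h1

/-- finite codimensional case -/
theorem core_finite [TopologicalSpace.SeparableSpace E] (x : ℕ → E) (B : ℝ)
    (hxB : ∀ n, ‖x n‖ ≤ B) (f : ℕ → (E →L[𝕜] 𝕜)) (C1 : ℝ) (hf : ∀ n, ‖f n‖ ≤ C1)
    (hfx : ∀ n, f n (x n) = 1) (hfx' : ∀ m n, m ≠ n → f m (x n) = 0)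
    (hd : Dense (((Submodule.span 𝕜 (Set.range x)).topologicalClosure
        ⊔ ⨅ n, LinearMap.ker (f n : E →ₗ[𝕜] 𝕜) : Submodule 𝕜 E) : Set E))
    (hfin : FiniteDimensional 𝕜 (E ⧸ (Submodule.span 𝕜 (Set.range x)).topologicalClosure)) :
    ∃ (z : ℕ → E) (F : ℕ → (E →L[𝕜] 𝕜)) (C : ℝ), (∀ n, F n (z n) = 1) ∧
      (∀ m n, m ≠ n → F m (z n) = 0) ∧ (∀ n, ‖z n‖ ≤ C) ∧ (∀ n, ‖F n‖ ≤ C) ∧
      Set.range x ⊆ Set.range z ∧ (Submodule.span 𝕜 (Set.range z)).topologicalClosure = ⊤ := by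
  classical
  set Y := (Submodule.span 𝕜 (Set.range x)).topologicalClosure with hYdef
  have hYc : IsClosed (Y : Set E) := Submodule.isClosed_topologicalClosure _
  have hxY : ∀ n, x n ∈ Y := fun n =>
    Submodule.le_topologicalClosure _ (Submodule.subset_span ⟨n, rfl⟩)
  obtain ⟨y, h, hyZ, hhY, hhy', hhy, hdd⟩ := stage3 Y (⨅ n, LinearMap.ker (f n : E →ₗ[𝕜] 𝕜)) hYc hd
  let K : Set ℕ := {k | y k ≠ 0}
  have hK1 : ∀ k : K, h k (y k) = 1 := by
    intro k
    rcases hhy k with h1 | h1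
    · exact h1
    · exact absurd h1.1 k.2
  have hli : LinearIndependent 𝕜 (fun k : K => (Submodule.Quotient.mk (y k) : E ⧸ Y)) := by
    rw [linearIndependent_iff']
    intro s c hc i hi
    have h1 : (∑ k ∈ s, c k • y k) ∈ Y := by
      rw [← Submodule.Quotient.mk_eq_zero, ← hc]
      rw [← Submodule.mkQ_apply, map_sum]
      rfl
    have h2 := hhY i _ h1
    rw [map_sum, Finset.sum_eq_single i] at h2
    · rw [map_smul, hK1 i, smul_eq_mul, mul_one] at h2
      exact h2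
    · intro j _ hji
      rw [map_smul, hhy' i j (fun h => hji (Subtype.ext h.symm)), smul_zero]
    · intro h3
      exact absurd hi h3
  have hKfin : Finite K := hli.finite
  obtain ⟨b1, hb1⟩ := (Set.finite_range (fun k : K => ‖y k‖)).bddAbove
  obtain ⟨b2, hb2⟩ := (Set.finite_range (fun k : K => ‖h k‖)).bddAbove
  let C := max (max B C1) (max b1 b2)
  have hZf : ∀ m k, f m (y k) = 0 := fun m k => (Submodule.mem_iInf _).mp (hyZ k) m
  obtain ⟨e, z, F, hz1, hz2, hF1, hF2, hzC, hFC, hFz, hFz'⟩ := combine (J := K) x f (fun k => y k)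
    (fun k => h k) C
    (fun n => (hxB n).trans ((le_max_left _ _).trans (le_max_left _ _)))
    (fun n => (hf n).trans ((le_max_right _ _).trans (le_max_left _ _)))
    (fun n => (hb1 ⟨n, rfl⟩).trans ((le_max_left _ _).trans (le_max_right _ _)))
    (fun n => (hb2 ⟨n, rfl⟩).trans ((le_max_right _ _).trans (le_max_right _ _)))
    hfx hfx' hK1 (fun m n hmn => hhy' m n (fun h => hmn (Subtype.ext h)))
    (fun m n => hZf m n) (fun m n => hhY m _ (hxY n))
  refine ⟨z, F, C, hFz, hFz', hzC, hFC, ?_, ?_⟩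
  · rintro _ ⟨n, rfl⟩
    exact ⟨_, hz1 n⟩
  · refine top_of_dense _ _ (Submodule.isClosed_topologicalClosure _) hdd (sup_le ?_ ?_)
    · refine Submodule.topologicalClosure_mono (Submodule.span_mono ?_)
      rintro _ ⟨n, rfl⟩
      exact ⟨_, hz1 n⟩
    · rw [Submodule.span_le]
      rintro _ ⟨k, rfl⟩
      by_cases hk : y k = 0
      · rw [hk]; exact Submodule.zero_mem _
      · exact Submodule.le_topologicalClosure _ (Submodule.subset_span ⟨_, hz2 ⟨k, hk⟩⟩)

/-- infinite codimensional case -/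
theorem core_infinite [TopologicalSpace.SeparableSpace E] (x : ℕ → E) (B : ℝ)
    (hxB : ∀ n, ‖x n‖ ≤ B) (f : ℕ → (E →L[𝕜] 𝕜)) (C1 : ℝ) (hf : ∀ n, ‖f n‖ ≤ C1)
    (hfx : ∀ n, f n (x n) = 1) (hfx' : ∀ m n, m ≠ n → f m (x n) = 0)
    (hd : Dense (((Submodule.span 𝕜 (Set.range x)).topologicalClosure
        ⊔ ⨅ n, LinearMap.ker (f n : E →ₗ[𝕜] 𝕜) : Submodule 𝕜 E) : Set E))
    (hinf : ¬ FiniteDimensional 𝕜 (E ⧸ (Submodule.span 𝕜 (Set.range x)).topologicalClosure)) :
    ∃ (z : ℕ → E) (F : ℕ → (E →L[𝕜] 𝕜)) (C : ℝ), (∀ n, F n (z n) = 1) ∧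
      (∀ m n, m ≠ n → F m (z n) = 0) ∧ (∀ n, ‖z n‖ ≤ C) ∧ (∀ n, ‖F n‖ ≤ C) ∧
      Set.range x ⊆ Set.range z ∧ (Submodule.span 𝕜 (Set.range z)).topologicalClosure = ⊤ := by
  classical
  have hYc : IsClosed ((Submodule.span 𝕜 (Set.range x)).topologicalClosure : Set E) :=
    Submodule.isClosed_topologicalClosure _
  have hxY : ∀ n, x n ∈ (Submodule.span 𝕜 (Set.range x)).topologicalClosure := fun n =>
    Submodule.le_topologicalClosure _ (Submodule.subset_span ⟨n, rfl⟩)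
  have hnull := null_of_main x f C1 hf hfx' hd
  -- good sequence vanishing on Y, then killed
  obtain ⟨v, g, hv, hg, hgv, hgv', hgY⟩ := exists_bdd_biorth_rel _ hYc hinf
  obtain ⟨w, h, f', C2, hw, hh, hf', hhw, hhw', hfw, hz⟩ :=
    stage2 f C1 hf hnull v g 2 3 hv hg hgv hgv'
  have hzx : ∀ j, (∀ i, h i (x j) = 0) ∧ ∀ n, f' n (x j) = f n (x j) := fun j =>
    hz (x j) (fun i => hgY i _ (hxY j))
  let C3 := max B C2
  obtain ⟨e, s, φ, hs1, hs2, hφ1, hφ2, hsC, hφC, hφs, hφs'⟩ := combine (J := ℕ) x f' w h C3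
    (fun n => (hxB n).trans (le_max_left _ _)) (fun n => (hf' n).trans (le_max_right _ _))
    (fun n => (hw n).trans (le_max_right _ _)) (fun n => (hh n).trans (le_max_right _ _))
    (fun n => by rw [(hzx n).2, hfx]) (fun m n hmn => by rw [(hzx n).2, hfx' m n hmn])
    hhw hhw' hfw (fun m n => (hzx n).1 m)
  have hC3 : 0 ≤ C3 := (norm_nonneg _).trans (hsC 0)
  obtain ⟨F, hF1, hF2, hF3⟩ := main_construction s φ (fun i j => by
      by_cases hij : i = j
      · rw [if_pos hij, hij, hφs]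
      · rw [if_neg hij, hφs' i j hij]) C3 hC3
    (fun n y _ => ((φ n).le_opNorm y).trans (mul_le_mul_of_nonneg_right (hφC n) (norm_nonneg _)))
    (2 * C3 + 1) (by linarith)
  have hSc : IsClosed ((Submodule.span 𝕜 (Set.range s)).topologicalClosure : Set E) :=
    Submodule.isClosed_topologicalClosure _
  have hsS : ∀ n, s n ∈ (Submodule.span 𝕜 (Set.range s)).topologicalClosure := fun n =>
    Submodule.le_topologicalClosure _ (Submodule.subset_span ⟨n, rfl⟩)
  have hFs : ∀ n, F n (s n) = 1 := fun n => by rw [hF1 n _ (hsS n), hφs]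
  have hFs' : ∀ m n, m ≠ n → F m (s n) = 0 := fun m n hmn => by
    rw [hF1 m _ (hsS n), hφs' m n hmn]
  obtain ⟨y, k, hyZ, hkS, hky', hky, hdd⟩ := stage3 _ _ hSc hF3
  have hFy : ∀ m j, F m (y j) = 0 := fun m j => (Submodule.mem_iInf _).mp (hyZ j) m
  have hks : ∀ j n, k j (s n) = 0 := fun j n => hkS j _ (hsS n)
  let C0 := 2 * C3 + 1
  have hC0 : 0 ≤ C0 := by positivity
  have hsC0 : ∀ n, ‖s n‖ ≤ C0 := fun n => (hsC n).trans (by simp only [C0]; linarith)
  -- rows of good pairs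
  let row : ℕ → ℕ → ℕ := fun i j => e (Sum.inr (Nat.pair i j))
  have hrow : ∀ i j i' j', row i j = row i' j' → i = i' ∧ j = j' := by
    intro i j i' j' hij
    have h1 := e.injective hij
    exact Nat.pair_eq_pair.mp (Sum.inr_injective h1)
  have hmix : ∀ i : ℕ, ∃ (J : Type) (_ : Countable J) (v' : J → E) (η' : J → (E →L[𝕜] 𝕜)),
      (∀ a, η' a (v' a) = 1) ∧ (∀ a b, a ≠ b → η' a (v' b) = 0) ∧
      (∀ a, ‖v' a‖ ≤ 3 * C0 + 1) ∧ (∀ a, ‖η' a‖ ≤ 3 * C0 + 1) ∧
      y i ∈ Submodule.span 𝕜 (Set.range v') ∧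
      (∀ j, s (row i j) ∈ Submodule.span 𝕜 (Set.range v')) ∧
      (∀ a, v' a ∈ Submodule.span 𝕜 (insert (y i) (Set.range fun j => s (row i j)))) ∧
      (∀ a, η' a ∈ Submodule.span 𝕜 (insert (k i) (Set.range fun j => F (row i j)))) := by
    intro i
    rcases hky i with h1 | ⟨h1, _⟩
    · let Bi := max ‖y i‖ ‖k i‖
      obtain ⟨m, hm⟩ := pow_unbounded_of_one_lt Bi (show (1 : ℝ) < 4 / 3 by norm_num)
      exact mixing C0 hC0 m Bi (by linarith) (y i) (k i) (fun j => s (row i j))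
        (fun j => F (row i j)) (le_max_left _ _) (le_max_right _ _) (fun j => hsC0 _)
        (fun j => hF2 _) h1 (fun j => hks _ _) (fun j => hFy _ _) (fun j => hFs _)
        (fun a b hab => hFs' _ _ (fun h => hab (hrow _ _ _ _ h).2))
    · refine ⟨ℕ, inferInstance, fun j => s (row i j), fun j => F (row i j), fun j => hFs _,
        fun a b hab => hFs' _ _ (fun h => hab (hrow _ _ _ _ h).2), ?_, ?_, ?_, ?_, ?_, ?_⟩
      · intro a; exact (hsC0 _).trans (by linarith)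
      · intro a; exact (hF2 _).trans (by simp only [C0]; linarith)
      · rw [h1]; exact Submodule.zero_mem _
      · intro j; exact Submodule.subset_span ⟨j, rfl⟩
      · intro j; exact Submodule.subset_span (Set.mem_insert_of_mem _ ⟨j, rfl⟩)
      · intro j; exact Submodule.subset_span (Set.mem_insert_of_mem _ ⟨j, rfl⟩)
  choose J hJ v' η' m1 m2 m3 m4 m5 m6 m7 m8 using hmix
  have hcross : ∀ i i', i ≠ i' → ∀ a b, η' i a (v' i' b) = 0 := by
    intro i i' hii a b
    refine span_pair_zero ?_ (m7 i' b) (m8 i a)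
    rintro a' (rfl | ⟨p, rfl⟩) u (rfl | ⟨q, rfl⟩)
    · exact hky' _ _ hii
    · exact hks _ _
    · exact hFy _ _
    · exact hFs' _ _ (fun h => hii (hrow _ _ _ _ h).1)
  have hxs : ∀ n, x n = s (e (Sum.inl n)) := fun n => (hs1 n).symm
  let y' : (Σ i, J i) → E := fun a => v' a.1 a.2
  let k' : (Σ i, J i) → (E →L[𝕜] 𝕜) := fun a => η' a.1 a.2
  obtain ⟨e', z, G, hz1, hz2, hG1, hG2, hzC, hGC, hGz, hGz'⟩ := combine (J := Σ i, J i)
    x (fun n => F (e (Sum.inl n))) y' k' (3 * C0 + 1)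
    (fun n => by rw [hxs]; exact (hsC0 _).trans (by linarith))
    (fun n => (hF2 _).trans (by simp only [C0]; linarith))
    (fun a => m3 _ _) (fun a => m4 _ _)
    (fun n => by rw [hxs]; exact hFs _)
    (fun m n hmn => by
      rw [hxs]
      exact hFs' _ _ (fun h => hmn (Sum.inl_injective (e.injective h))))
    (fun a => m1 _ _)
    (by
      rintro ⟨i, a⟩ ⟨i', a'⟩ haa
      by_cases hii : i = i'
      · subst hii
        exact m2 i a a' (fun h => haa (by rw [h]))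
      · exact hcross i i' hii a a')
    (by
      rintro m ⟨i, a⟩
      refine span_pair_zero (A' := {F (e (Sum.inl m))}) ?_ (m7 i a)
        (Submodule.subset_span rfl)
      rintro a' rfl u (rfl | ⟨q, rfl⟩)
      · exact hFy _ _
      · exact hFs' _ _ (fun h => by simpa using e.injective h))
    (by
      rintro ⟨i, a⟩ n
      refine span_pair_zero (A := {x n}) ?_ (Submodule.subset_span rfl) (m8 i a)
      rintro a' (rfl | ⟨q, rfl⟩) u rfl
      · rw [hxs]; exact hks _ _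
      · rw [hxs]; exact hFs' _ _ (fun h => by simpa using e.injective h))
  have hspan : ∀ i, Submodule.span 𝕜 (Set.range (v' i)) ≤ Submodule.span 𝕜 (Set.range z) := by
    intro i
    refine Submodule.span_mono ?_
    rintro _ ⟨a, rfl⟩
    exact ⟨_, hz2 ⟨i, a⟩⟩
  refine ⟨z, G, 3 * C0 + 1, hGz, hGz', hzC, hGC, ?_, ?_⟩
  · rintro _ ⟨n, rfl⟩
    exact ⟨_, hz1 n⟩
  · refine top_of_dense _ _ (Submodule.isClosed_topologicalClosure _) hdd (sup_le ?_ ?_)
    · refine Submodule.topologicalClosure_mono (Submodule.span_le.mpr ?_)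
      rintro _ ⟨n, rfl⟩
      obtain ⟨c, rfl⟩ := e.surjective n
      rcases c with c | c
      · rw [hs1]
        exact Submodule.subset_span ⟨_, hz1 c⟩
      · have h1 : e (Sum.inr c) = row (Nat.unpair c).1 (Nat.unpair c).2 := by
          simp only [row, Nat.pair_unpair]
        rw [h1]
        exact hspan _ (m6 _ _)
    · rw [Submodule.span_le]
      rintro _ ⟨i, rfl⟩
      exact Submodule.le_topologicalClosure _ (hspan _ (m5 i))

/-- Every strictly bounded minimal sequence `x` in a separable Banach space `E` (over `ℝ` or `ℂ`)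
is contained in a strictly bounded minimal sequence `z` which is complete in `E`.

Here `x` is minimal with associated functionals `φ n` on the closed linear span of `x`, with
`‖x n‖ ≤ B` and `‖φ n‖ ≤ M` for all `n`; the conclusion gives `z : ℕ → E` and `F n` in the dual of
`E` with `F i (z j) = δ_ij`, `‖z n‖ ≤ C`, `‖F n‖ ≤ C`, every term of `x` being a term of `z`, and
the closed linear span of `z` equal to `E`. -/
theorem result {𝕜 : Type*} [RCLike 𝕜] {E : Type*} [NormedAddCommGroup E] [NormedSpace 𝕜 E]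
    [CompleteSpace E] [TopologicalSpace.SeparableSpace E]
    (x : ℕ → E)
    (φ : ℕ → ((Submodule.span 𝕜 (Set.range x)).topologicalClosure →L[𝕜] 𝕜))
    (hφ : ∀ i j, ∀ u : (Submodule.span 𝕜 (Set.range x)).topologicalClosure, (u : E) = x j →
      φ i u = if i = j then 1 else 0)
    (B : ℝ) (hxB : ∀ n, ‖x n‖ ≤ B) (M : ℝ) (hφM : ∀ n, ‖φ n‖ ≤ M) :
    ∃ (z : ℕ → E) (F : ℕ → (E →L[𝕜] 𝕜)) (C : ℝ),
      (∀ i j, F i (z j) = if i = j then 1 else 0) ∧
      (∀ n, ‖z n‖ ≤ C) ∧ (∀ n, ‖F n‖ ≤ C) ∧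
      Set.range x ⊆ Set.range z ∧
      (Submodule.span 𝕜 (Set.range z)).topologicalClosure = ⊤ := by
  have hM : 0 ≤ M := (norm_nonneg (φ 0)).trans (hφM 0)
  have hext := fun n => exists_extension_norm_eq
    (Submodule.span 𝕜 (Set.range x)).topologicalClosure (φ n)
  choose g hg hgn using hext
  have hxY : ∀ n, x n ∈ (Submodule.span 𝕜 (Set.range x)).topologicalClosure := fun n =>
    Submodule.le_topologicalClosure _ (Submodule.subset_span ⟨n, rfl⟩)
  have hgx : ∀ i j, g i (x j) = if i = j then 1 else 0 := fun i j => by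
    have h1 := hg i ⟨x j, hxY j⟩
    have h2 := hφ i j ⟨x j, hxY j⟩ rfl
    rw [← h2, ← h1]
  obtain ⟨f, hf1, hf2, hf3⟩ := main_construction x g hgx M hM
    (fun n y _ => (g n).le_opNorm y |>.trans
      (mul_le_mul_of_nonneg_right ((hgn n).le.trans (hφM n)) (norm_nonneg _)))
    (2 * M + 1) (by linarith)
  have hfx : ∀ n, f n (x n) = 1 := fun n => by
    rw [hf1 n _ (hxY n), hgx, if_pos rfl]
  have hfx' : ∀ m n, m ≠ n → f m (x n) = 0 := fun m n hmn => by
    rw [hf1 m _ (hxY n), hgx, if_neg hmn]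
  have hcore : ∃ (z : ℕ → E) (F : ℕ → (E →L[𝕜] 𝕜)) (C : ℝ), (∀ n, F n (z n) = 1) ∧
      (∀ m n, m ≠ n → F m (z n) = 0) ∧ (∀ n, ‖z n‖ ≤ C) ∧ (∀ n, ‖F n‖ ≤ C) ∧
      Set.range x ⊆ Set.range z ∧ (Submodule.span 𝕜 (Set.range z)).topologicalClosure = ⊤ := by
    by_cases hfin : FiniteDimensional 𝕜 (E ⧸ (Submodule.span 𝕜 (Set.range x)).topologicalClosure)
    · exact core_finite x B hxB f (2 * M + 1) hf2 hfx hfx' hf3 hfin
    · exact core_infinite x B hxB f (2 * M + 1) hf2 hfx hfx' hf3 hfin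
  obtain ⟨z, F, C, h1, h2, h3, h4, h5, h6⟩ := hcore
  refine ⟨z, F, C, ?_, h3, h4, h5, h6⟩
  intro i j
  by_cases hij : i = j
  · rw [if_pos hij, hij, h1]
  · rw [if_neg hij, h2 i j hij]

end Pool.Agent.Results.MP_49bdf6_an.CompleteExtension
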